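import Pool.Agent.KS6_77.RR.Orbit
import Pool.Graph.R_pool_sql_team_seeded_2aa45f1a.Q288.NC.Std

set_option autoImplicit false

/-!
# Negative curves and the rational boundary rays in the orbit of `111 H - 36 E₁ - 35 (E₂ + ⋯ + E₁₀)`

Let `X` be the blow-up of the complex projective plane at `n ≥ 10` very general points, let `T` be
any ten of the points and `i ∈ T`, and consider the classes `D` in the orbit of
`D₀ = 111 H - 36 E i - 35 ∑_{j ∈ T, j ≠ i} E j` under the reflections in the classes
`H - E a - E b - E c` (the quadratic transformations).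

* All these `D` are integral, `D ^ 2 = 0`, `K D = 18 > 0`; the orbit contains classes of arbitrarily
  large degree and any two of them are on different rays.
* `D C > 0` for EVERY irreducible curve `C` on `X` which is not a `(-1)`-curve, in particular for all
  other negative curves; if `n = 10`, or `D = D₀` and `C` is a plane curve, then `D C > 0` for the
  `(-1)`-curves, too. All `D` are nef.
* If `n = 10` or `D = D₀`, no plane curve (irreducible or not) has the degree `k D.1` and
  multiplicities at least `k D.2 l`, `k ≥ 1`.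
* A negative curve which is not a `(-1)`-curve is carried by quadratic transformations to an
  irreducible curve `(d₁; w₁)` at other very general points, in standard form, with
  `35 ∑_{T} w₁ + w₁ i < 111 d₁` for all `T`, `i`.

So the infinitely many half-spaces `D C ≤ 0`, whose boundary touches the light cone in a rational ray,
do not contain the class of any further negative curve.
-/

namespace Pool.Agent.Results.MP_d3e5c7_ag.RationalRays

open MvPolynomial Pool.Agent.R355.ConeAct Pool.Agent.KS6_77.RR Pool.Agent.TH167.SHDefs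

theorem kap_curve {n : ℕ} (d : ℕ) (w : Fin n → ℕ) :
    kap ((d : ℝ), fun l => (w l : ℝ)) = ((interK d w : ℤ) : ℝ) := by
  unfold kap interK
  push_cast
  rfl

theorem dot_curve {n : ℕ} (d : ℕ) (w : Fin n → ℕ) :
    dot ((d : ℝ), fun l => (w l : ℝ)) ((d : ℝ), fun l => (w l : ℝ)) =
      ((inter d w d w : ℤ) : ℝ) := by
  unfold dot inter
  push_cast
  rfl

theorem result (n : ℕ) (hn : 10 ≤ n) :
    ∃ f : ℕ → MvPolynomial (Fin n × Fin 2) ℂ, (∀ k, f k ≠ 0) ∧
      ∀ P : Fin n → Fin 2 → ℂ,
        (∀ k, MvPolynomial.eval (fun q : Fin n × Fin 2 => P q.1 q.2) (f k) ≠ 0) →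
        -- (1) the orbits of the classes `D₀ = ray T i`
        (∀ (T : Finset (Fin n)) (i : Fin n), T.card = 10 → i ∈ T →
          (∀ M : ℝ, ∃ D, Carries (ray T i) D ∧ M ≤ D.1) ∧
          (∀ D D', Carries (ray T i) D → Carries (ray T i) D' → ∀ c : ℝ, D' = c • D → D' = D) ∧
          ∀ D, Carries (ray T i) D →
            IsInt D ∧ dot D D = 0 ∧ kap D = 18 ∧ 0 < D.1 ∧ (∀ l, 0 ≤ D.2 l) ∧
            (∀ x ∈ curvCone P, 0 ≤ dot D x) ∧
            -- strict positivity on all irreducible curves but the `(-1)`-curves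
            (∀ (C : MvPolynomial (Fin 3) ℂ) (d : ℕ) (w : Fin n → ℕ), Curve P C d w →
              ¬ MinusOne P C d w ∨ n = 10 ∨ D = ray T i → ∑ l, D.2 l * w l < D.1 * d) ∧
            (n = 10 → ∀ l, 0 < D.2 l) ∧
            -- no multiple is effective
            (n = 10 ∨ D = ray T i → ∀ (F : MvPolynomial (Fin 3) ℂ) (k e : ℕ) (m : Fin n → ℕ),
              0 < k → F.IsHomogeneous e → (e : ℝ) = k * D.1 → (∀ l, (m l : ℝ) = k * D.2 l) →
              (∀ l, F ∈ pt (P l) ^ m l) → F = 0)) ∧
        -- (2) the standard forms of negative curves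
        ∀ (d : ℕ) (w : Fin n → ℕ) (C : MvPolynomial (Fin 3) ℂ),
          Curve P C d w → inter d w d w < 0 → ¬ MinusOne P C d w →
          ∃ (P1 : Fin n → Fin 2 → ℂ) (d1 : ℕ) (w1 : Fin n → ℕ) (C1 : MvPolynomial (Fin 3) ℂ),
            (∀ k, MvPolynomial.eval (fun ij : Fin n × Fin 2 => P1 ij.1 ij.2) (f k) ≠ 0) ∧
            Curve P1 C1 d1 w1 ∧ Relation.ReflTransGen Quadratic (d, w) (d1, w1) ∧
            (∀ i j k : Fin n, i ≠ j → i ≠ k → j ≠ k → w1 i + w1 j + w1 k ≤ d1) ∧
            d1 ≤ d ∧ (∀ i, w1 i ≤ w i) ∧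
            inter d1 w1 d1 w1 = inter d w d w ∧ interK d1 w1 = interK d w ∧
            0 < interK d w ∧
            ∀ (T : Finset (Fin n)) (i : Fin n), T.card = 10 → i ∈ T →
              35 * ∑ l ∈ T, w1 l + w1 i < 111 * d1 := by
  classical
  obtain ⟨f, hf, h⟩ := Pool.Agent.TH167.SH.exists_fam (Fin n × Fin 2)
  refine ⟨f, hf, fun P hP0 => ?_⟩
  have hP := (h _).1 hP0
  refine ⟨fun T i hT hi => ⟨fun M => ?_, fun D D' hD hD' c hc => ?_, fun D hD => ?_⟩,
    fun d w C hC hneg hne => ?_⟩
  · exact exists_large hn (by show (0 : ℝ) < 111; norm_num) (ray_self hT hi).ge M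
  · have k1 := (orbit_curve hP hT hi hD).2.2.1
    have k2 := (orbit_curve hP hT hi hD').2.2.1
    have k3 : kap D' = c * kap D := by
      rw [hc]
      exact kap_smul c D
    rw [k1, k2] at k3
    have k5 : c = 1 := by linarith
    rw [hc, k5, one_smul]
  · obtain ⟨h1, h2, h3, h4⟩ := orbit_curve hP hT hi hD
    refine ⟨h1, h2, h3, orbit_deg hP hT hi hD, fun l => (orbit_coeff hP hT hi hD l).1,
      nef_of_gen fun x hx => orbit_nonneg hP hT hi hD hx, fun C d w hC hor => ?_,
      fun h10 l => (orbit_coeff hP hT hi hD l).2 h10, fun hor F k e m hk hF he hm hv => ?_⟩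
    · rcases hor with hor | hor
      · rcases h4 _ (Or.inl ⟨C, d, w, hC, rfl⟩) with h5 | ⟨-, h6, h7, -⟩
        · unfold dot at h5
          simp only at h5
          linarith
        · exfalso
          rw [dot_curve] at h6
          rw [kap_curve] at h7
          exact hor ⟨hC, by exact_mod_cast h6, by exact_mod_cast h7⟩
      · have hd : 0 < d := deg_pos hC
        exact (orbit_form hP hT hi hD hC.irreducible.ne_zero hd hC.homogeneous
          (m := w) fun l => (hC.mult l).1).2 hor
    · by_contra hF0
      have hk' : (0 : ℝ) < k := by exact_mod_cast hk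
      have he0 : 0 < e := by
        have h5 : (0 : ℝ) < e := by
          rw [he]
          exact mul_pos hk' (orbit_deg hP hT hi hD)
        exact_mod_cast h5
      have h5 := (orbit_form hP hT hi hD hF0 he0 hF hv).2 hor
      rw [he, Finset.sum_congr rfl fun l _ => by rw [hm l]] at h5
      have h6 : ∑ l, D.2 l * (k * D.2 l) = k * ∑ l, D.2 l * D.2 l := by
        rw [Finset.mul_sum]
        exact Finset.sum_congr rfl fun l _ => by ring
      rw [h6] at h5
      unfold dot at h2
      have h7 : ∑ l, D.2 l * D.2 l = D.1 * D.1 := by linarith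
      rw [h7] at h5
      linarith
  · obtain ⟨P1, d1, w1, C1, h1, h2, h3, h4, h5, h6, h7, h8, h9⟩ :=
      Pool.Agent.Q288.NC.std_neg (by omega) hP hC hneg hne
    refine ⟨P1, d1, w1, C1, (h _).2 h1, h2, h3, h4, h5, h6, h7, h8, h9, fun T i hT hi => ?_⟩
    have hd : 0 < d1 := deg_pos h2
    exact form_lt h1 hT hi hd h2.homogeneous h2.irreducible.ne_zero fun l _ => (h2.mult l).1

end Pool.Agent.Results.MP_d3e5c7_ag.RationalRays
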